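import Pool.Agent.MP_670f9a_nt.H13.Spec2

/-!
The height of a point of large degree on a plane curve.
-/

namespace Pool.Agent.MP_670f9a_nt.H3Zhang

open Pool.Agent.MP_670f9a_nt.NP Real Finset Module
open scoped Matrix

lemma pow_le_exp (x : ℝ) (hx : 0 ≤ x) (i L : ℕ) (hi : i ≤ L) : x ^ i ≤ exp (L * log⁺ x) := by
  have h0 : 0 ≤ log⁺ x := posLog_nonneg
  have h1 : x ≤ exp (log⁺ x) := by
    rcases hx.eq_or_lt with h | h
    · rw [← h]; exact (exp_pos _).le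
    · calc x = exp (log x) := (exp_log h).symm
        _ ≤ exp (log⁺ x) := exp_le_exp.2 (le_max_right _ _)
  calc x ^ i ≤ exp (log⁺ x) ^ i := pow_le_pow_left₀ hx h1 i
    _ = exp (i * log⁺ x) := by rw [exp_nat_mul]
    _ ≤ exp (L * log⁺ x) := by
      apply exp_le_exp.2
      exact mul_le_mul_of_nonneg_right (by exact_mod_cast hi) h0

lemma sum_le (a b : ℂ) (L : ℕ) (hL : 1 ≤ L) :
    ∑ i : Fin L × Fin L, ‖a ^ (i.1 : ℕ) * b ^ (i.2 : ℕ)‖ ^ 2 ≤
      exp (2 * log L + 2 * L * (log⁺ ‖a‖ + log⁺ ‖b‖)) := by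
  have hLp : (0 : ℝ) < L := by exact_mod_cast hL
  have h1 : ∀ i : Fin L × Fin L, ‖a ^ (i.1 : ℕ) * b ^ (i.2 : ℕ)‖ ^ 2 ≤
      exp (2 * L * (log⁺ ‖a‖ + log⁺ ‖b‖)) := by
    intro i
    have ha := pow_le_exp ‖a‖ (norm_nonneg _) i.1 L i.1.2.le
    have hb := pow_le_exp ‖b‖ (norm_nonneg _) i.2 L i.2.2.le
    have h2 : ‖a ^ (i.1 : ℕ) * b ^ (i.2 : ℕ)‖ ≤ exp (L * (log⁺ ‖a‖ + log⁺ ‖b‖)) := by
      rw [norm_mul, norm_pow, norm_pow, mul_add, exp_add]
      exact mul_le_mul ha hb (by positivity) (exp_pos _).le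
    calc _ ≤ exp (L * (log⁺ ‖a‖ + log⁺ ‖b‖)) ^ 2 := pow_le_pow_left₀ (norm_nonneg _) h2 2
      _ = _ := by rw [← exp_nat_mul]; congr 1; push_cast; ring
  calc _ ≤ ∑ _i : Fin L × Fin L, exp (2 * L * (log⁺ ‖a‖ + log⁺ ‖b‖)) :=
        sum_le_sum fun i _ => h1 i
    _ = (L : ℝ) ^ 2 * exp (2 * L * (log⁺ ‖a‖ + log⁺ ‖b‖)) := by
        rw [sum_const, card_univ, Fintype.card_prod, Fintype.card_fin, nsmul_eq_mul]
        push_cast; ring
    _ = _ := by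
        rw [exp_add]
        congr 1
        have : exp (2 * log L) = exp (log L) ^ 2 := by
          rw [← exp_nat_mul]; norm_num
        rw [this, exp_log hLp]

theorem sZhang (h1 : SGram) (h2 : SDual) (h3 : SSpan) (h4 : SLow) : SZhang := by
  intro K _ _ α β P n Λ hα hβ hadj hirr hP hdeg hn hΛ hD
  classical
  have hP0 : P ≠ 0 := hirr.ne_zero
  have hn0 : P.degreeOf 0 ≤ n := (MvPolynomial.degreeOf_le_totalDegree P 0).trans hdeg
  have hn1 : P.degreeOf 1 ≤ n := (MvPolynomial.degreeOf_le_totalDegree P 1).trans hdeg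
  obtain ⟨hm, hlow⟩ := h4 P Λ hP0
  obtain ⟨hs1, hs2⟩ := h3 K α β P Λ hadj hirr hP
    ((Nat.mul_le_mul_right Λ (by omega : P.degreeOf 0 + P.degreeOf 1 ≤ 2 * n)).trans hD)
  have hG := h1 _ _ ((box P Λ).map (Int.cast : ℤ → ℝ)) (exp (2 * mahler P)) (exp_pos _).le
    (fun k c hc hl => by simpa [Matrix.map_apply] using hlow k c hc hl)
  have hdet : ((box P Λ).map (Int.cast : ℤ → ℝ) * ((box P Λ).map (Int.cast : ℤ → ℝ))ᵀ).det =
      (((box P Λ * (box P Λ)ᵀ).det : ℤ) : ℝ) := by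
    have e1 := (Int.castRingHom ℝ).map_det (box P Λ * (box P Λ)ᵀ)
    rw [eq_intCast] at e1
    rw [e1]
    congr 1
    ext k l
    simp [Matrix.mul_apply]
  have hDu := h2 K _ _ (fun i : Fin Λ × Fin Λ => α ^ (i.1 : ℕ) * β ^ (i.2 : ℕ)) (box P Λ)
    (fun i => (hα.pow _).mul (hβ.pow _)) hs1 hs2
  rw [hdet] at hG
  set D := finrank ℚ K with hDdef
  set η : ℝ := ∑ σ : K →+* ℂ, (log⁺ ‖σ α‖ + log⁺ ‖σ β‖) with hη
  have hη0 : 0 ≤ η := sum_nonneg fun σ _ => add_nonneg posLog_nonneg posLog_nonneg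
  have hΛ1 : 1 ≤ Λ := by omega
  have hcard : Fintype.card (K →+* ℂ) = D := NumberField.Embeddings.card K ℂ
  have hprod : ∏ σ : K →+* ℂ, ∑ i : Fin Λ × Fin Λ, ‖σ (α ^ (i.1 : ℕ) * β ^ (i.2 : ℕ))‖ ^ 2 ≤
      exp (2 * (D * log Λ + Λ * η)) := by
    calc _ ≤ ∏ σ : K →+* ℂ, exp (2 * log Λ + 2 * Λ * (log⁺ ‖σ α‖ + log⁺ ‖σ β‖)) := by
          apply prod_le_prod
          · intro σ _; exact sum_nonneg fun i _ => by positivity
          · intro σ _
            simpa only [map_mul, map_pow] using sum_le (σ α) (σ β) Λ hΛ1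
      _ = _ := by
          rw [← exp_sum, sum_add_distrib, sum_const, card_univ, hcard, ← mul_sum, nsmul_eq_mul]
          congr 1; ring
  set N' := Fintype.card (Fin (Λ - P.degreeOf 1) ×ₗ Fin (Λ - P.degreeOf 0)) with hN'
  set ρ := Fintype.card (Fin Λ × Fin Λ) - N' with hρ
  have hN'e : N' = (Λ - P.degreeOf 1) * (Λ - P.degreeOf 0) := by
    rw [hN', Fintype.card_lex, Fintype.card_prod, Fintype.card_fin, Fintype.card_fin]
  have hρe : ρ = Λ * Λ - N' := by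
    rw [hρ, Fintype.card_prod, Fintype.card_fin]
  set X : ℝ := D * log Λ + Λ * η with hX
  have hX0 : 0 ≤ X := add_nonneg (mul_nonneg (Nat.cast_nonneg _) (log_natCast_nonneg _))
    (mul_nonneg (Nat.cast_nonneg _) hη0)
  have hmain : exp (2 * mahler P * N' * D) ≤ exp (ρ * (2 * X)) := by
    calc exp (2 * mahler P * N' * D) = (exp (2 * mahler P) ^ N') ^ D := by
          rw [← exp_nat_mul, ← exp_nat_mul]; congr 1; ring
      _ ≤ (((box P Λ * (box P Λ)ᵀ).det : ℤ) : ℝ) ^ D :=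
          pow_le_pow_left₀ (by positivity) hG D
      _ ≤ _ := hDu
      _ ≤ exp (2 * X) ^ ρ :=
          pow_le_pow_left₀ (prod_nonneg fun σ _ => sum_nonneg fun i _ => by positivity) hprod ρ
      _ = _ := by rw [exp_nat_mul]
  have hlin := exp_le_exp.1 hmain
  obtain ⟨a, ha⟩ : ∃ a, Λ = P.degreeOf 1 + a := ⟨Λ - P.degreeOf 1, by omega⟩
  obtain ⟨b, hb⟩ : ∃ b, Λ = P.degreeOf 0 + b := ⟨Λ - P.degreeOf 0, by omega⟩
  have hab : N' = a * b := by
    rw [hN'e]; congr 1 <;> omega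
  have hq1 : Λ * Λ ≤ 4 * N' := by
    rw [hab]
    calc Λ * Λ ≤ (2 * a) * (2 * b) := Nat.mul_le_mul (by omega) (by omega)
      _ = 4 * (a * b) := by ring
  have hq2 : ρ ≤ 2 * n * Λ := by
    rw [hρe, hab]
    have : Λ * Λ ≤ a * b + 2 * n * Λ := by
      have e1 : Λ * Λ = a * b + (P.degreeOf 1 * Λ + a * P.degreeOf 0) := by
        calc Λ * Λ = (P.degreeOf 1 + a) * Λ := by rw [← ha]
          _ = P.degreeOf 1 * Λ + a * Λ := by ring
          _ = P.degreeOf 1 * Λ + a * (P.degreeOf 0 + b) := by rw [← hb]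
          _ = _ := by ring
      have e2 : P.degreeOf 1 * Λ ≤ n * Λ := Nat.mul_le_mul_right _ hn1
      have e3 : a * P.degreeOf 0 ≤ Λ * n := Nat.mul_le_mul (by omega) hn0
      nlinarith
    omega
  have hq1' : (Λ : ℝ) * Λ ≤ 4 * N' := by exact_mod_cast hq1
  have hq2' : (ρ : ℝ) ≤ 2 * n * Λ := by exact_mod_cast hq2
  have hΛp : (0 : ℝ) < Λ := by exact_mod_cast hΛ1
  have hD0 : (0 : ℝ) ≤ D := Nat.cast_nonneg _
  have hfin : (mahler P * Λ * D) * Λ ≤ (8 * n * X) * Λ := by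
    have e1 : mahler P * D * (Λ * Λ) ≤ mahler P * D * (4 * N') :=
      mul_le_mul_of_nonneg_left hq1' (mul_nonneg hm hD0)
    have e2 : (ρ : ℝ) * X ≤ 2 * n * Λ * X := mul_le_mul_of_nonneg_right hq2' hX0
    nlinarith
  exact le_of_mul_le_mul_right hfin hΛp

end Pool.Agent.MP_670f9a_nt.H3Zhang
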